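import Pool.Agent.Run7.h789.Count

set_option autoImplicit false

namespace Pool.Agent.Results.MP_6a396b_nt.FourteenRegular

open Pool.Agent.Run7.h789

/-- Seven rationals: every two of them lie together in at most four regular quadruples, and at
most 14 of the 35 four-element subsets are regular quadruples.  In particular this holds for
every rational Diophantine 7-tuple. -/
theorem result (t : Finset ℚ) (hc : t.card = 7) :
    (∀ a ∈ t, ∀ b ∈ t, a ≠ b →
      {q : Finset ℚ | q ⊆ t ∧ IsRegularQuad q ∧ a ∈ q ∧ b ∈ q}.ncard ≤ 4) ∧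
    {q : Finset ℚ | q ⊆ t ∧ IsRegularQuad q}.ncard ≤ 14 := by
  classical
  set Q : Finset (Finset ℚ) := t.powerset.filter (fun q => IsRegularQuad q) with hQ
  have hmem : ∀ q ∈ Q, q ⊆ t ∧ IsRegularQuad q := by
    intro q hq
    rw [hQ, Finset.mem_filter, Finset.mem_powerset] at hq
    exact hq
  refine ⟨?_, ?_⟩
  · intro a ha b hb hab
    have h := pair_le_four hc Q hmem ha hb hab
    have he : {q : Finset ℚ | q ⊆ t ∧ IsRegularQuad q ∧ a ∈ q ∧ b ∈ q} =
        ((Q.filter (fun q => ({a, b} : Finset ℚ) ⊆ q) : Finset (Finset ℚ)) :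
          Set (Finset ℚ)) := by
      ext q
      simp only [Finset.coe_filter, hQ, Finset.mem_filter, Finset.mem_powerset,
        Finset.insert_subset_iff, Finset.singleton_subset_iff]
      constructor
      · rintro ⟨h1, h2, h3, h4⟩; exact ⟨⟨h1, h2⟩, h3, h4⟩
      · rintro ⟨⟨h1, h2⟩, h3, h4⟩; exact ⟨h1, h2, h3, h4⟩
    rw [he, Set.ncard_coe_finset]
    exact h
  · have h := quads_le hc Q hmem
    have he : {q : Finset ℚ | q ⊆ t ∧ IsRegularQuad q} = (Q : Set (Finset ℚ)) := by
      ext q
      simp only [hQ, Finset.coe_filter, Finset.mem_powerset]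
    rw [he, Set.ncard_coe_finset]
    exact h

end Pool.Agent.Results.MP_6a396b_nt.FourteenRegular
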