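import Pool.Agent.Run7.h789.Integral

set_option autoImplicit false

namespace Pool.Agent.Results.MP_6a396b_nt.IrregularQuintuple

open Pool.Agent.Run7.h789 N3d365e8b

/-- A rational Diophantine 7-tuple all of whose elements have odd denominators, or all of whose
elements have denominators prime to 3, contains five elements which do not form a regular
quintuple and among which there is no regular quadruple. -/
theorem result (t : Finset ℚ) (ht : IsRationalDiophantineTuple t) (hc : t.card = 7)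
    (h : (∀ x ∈ t, ¬ 2 ∣ x.den) ∨ (∀ x ∈ t, ¬ 3 ∣ x.den)) :
    ∃ s ⊆ t, s.card = 5 ∧ ¬ IsRegularQuint s ∧ ∀ q ⊆ s, ¬ IsRegularQuad q := by
  classical
  have : Fact (Nat.Prime 2) := ⟨Nat.prime_two⟩
  have : Fact (Nat.Prime 3) := ⟨Nat.prime_three⟩
  rcases h with h | h
  · -- the prime 2
    have hcard : (t.filter (fun x => ¬ (4 : ℤ) ∣ x.num)).card ≤ 2 := by
      by_contra hcon
      push Not at hcon
      obtain ⟨x, hx, y, hy, z, hz, hxy, hxz, hyz⟩ := Finset.two_lt_card.1 hcon
      rw [Finset.mem_filter] at hx hy hz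
      have typ : ∀ u : ℚ, u ∈ t ∧ ¬ (4 : ℤ) ∣ u.num →
          (u.num % 2 = 1 ∧ (u.den : ℤ) % 2 = 1) ∨ (u.num % 4 = 2 ∧ (u.den : ℤ) % 2 = 1) := by
        intro u hu
        have hd : (u.den : ℤ) % 2 = 1 := by have := h u hu.1; omega
        have := hu.2
        by_cases h2 : u.num % 2 = 1
        · exact Or.inl ⟨h2, hd⟩
        · exact Or.inr ⟨by omega, hd⟩
      have sq : ∀ u v : ℚ, (u ∈ t ∧ ¬ (4 : ℤ) ∣ u.num) → (v ∈ t ∧ ¬ (4 : ℤ) ∣ v.num) → u ≠ v →
          (u.num % 2 = 1 ∧ (u.den : ℤ) % 2 = 1) ∧ (v.num % 2 = 1 ∧ (v.den : ℤ) % 2 = 1) := by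
        intro u v hu hv huv
        rcases typ u hu with h1 | h1 <;> rcases typ v hv with h2 | h2
        · exact ⟨h1, h2⟩
        · exact (no_odd_two (ht.2 u hu.1 v hv.1 huv) h1 (Or.inl h2)).elim
        · exact (no_odd_two (ht.2 v hv.1 u hu.1 huv.symm) h2 (Or.inl h1)).elim
        · exact (no_two_two (ht.2 u hu.1 v hv.1 huv) h1 h2).elim
      exact no_three_odd (ht.2 x hx.1 y hy.1 hxy) (ht.2 x hx.1 z hz.1 hxz)
        (ht.2 y hy.1 z hz.1 hyz) (sq x y hx hy hxy).1 (sq x y hx hy hxy).2 (sq x z hx hz hxz).2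
    have hP : 5 ≤ (t.filter (fun x => (4 : ℤ) ∣ x.num)).card := by
      have := Finset.card_filter_add_card_filter_not (s := t) (fun x : ℚ => (4 : ℤ) ∣ x.num)
      omega
    obtain ⟨s, hs, hs5⟩ := Finset.exists_subset_card_eq hP
    have hall : ∀ x ∈ s, ∃ y : loc 2, x = 4 * y := by
      intro x hx
      have hx' := Finset.mem_filter.1 (hs hx)
      exact mul_of_num (p := 2) (k := 4) (h x hx'.1) (by exact_mod_cast hx'.2)
    refine ⟨s, fun x hx => (Finset.mem_filter.1 (hs hx)).1, hs5, ?_, ?_⟩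
    · intro hq; exact quint_not_two hq hall
    · intro q hqs hq; exact quad_not_two hq (fun x hx => hall x (hqs hx))
  · -- the prime 3
    have hcard : (t.filter (fun x => ¬ (3 : ℤ) ∣ x.num)).card ≤ 2 := by
      by_contra hcon
      push Not at hcon
      obtain ⟨x, hx, y, hy, z, hz, hxy, hxz, hyz⟩ := Finset.two_lt_card.1 hcon
      rw [Finset.mem_filter] at hx hy hz
      have p : ∀ u : ℚ, u ∈ t ∧ ¬ (3 : ℤ) ∣ u.num → ¬ (3 : ℤ) ∣ u.num * u.den := by
        intro u hu hd
        rcases Int.prime_three.dvd_or_dvd hd with h1 | h1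
        · exact hu.2 h1
        · exact h u hu.1 (by exact_mod_cast h1)
      exact no_three_mod_three
        (pair_mod_three (ht.2 x hx.1 y hy.1 hxy) (p x hx) (p y hy))
        (pair_mod_three (ht.2 x hx.1 z hz.1 hxz) (p x hx) (p z hz))
        (pair_mod_three (ht.2 y hy.1 z hz.1 hyz) (p y hy) (p z hz))
    have hP : 5 ≤ (t.filter (fun x => (3 : ℤ) ∣ x.num)).card := by
      have := Finset.card_filter_add_card_filter_not (s := t) (fun x : ℚ => (3 : ℤ) ∣ x.num)
      omega
    obtain ⟨s, hs, hs5⟩ := Finset.exists_subset_card_eq hP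
    have hall : ∀ x ∈ s, ∃ y : loc 3, x = 3 * y := by
      intro x hx
      have hx' := Finset.mem_filter.1 (hs hx)
      exact mul_of_num (p := 3) (k := 3) (h x hx'.1) (by exact_mod_cast hx'.2)
    refine ⟨s, fun x hx => (Finset.mem_filter.1 (hs hx)).1, hs5, ?_, ?_⟩
    · intro hq; exact quint_not_three hq hall
    · intro q hqs hq; exact quad_not_three hq (fun x hx => hall x (hqs hx))

end Pool.Agent.Results.MP_6a396b_nt.IrregularQuintuple
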