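import Pool.Agent.Run7.h789.Twelve

set_option autoImplicit false

namespace Pool.Agent.Results.MP_6a396b_nt.TwelveDivides

open Pool.Agent.Run7.h789 N3d365e8b

/-- In a rational Diophantine tuple of any size, all but at most five elements `x` have
numerator times denominator divisible by 12. -/
theorem result (t : Finset ℚ) (ht : IsRationalDiophantineTuple t) :
    (t.filter (fun x => ¬ (12 : ℤ) ∣ x.num * x.den)).card ≤ 5 := by
  classical
  have h3 : (t.filter (fun x => ¬ (3 : ℤ) ∣ x.num * x.den)).card ≤ 2 := by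
    by_contra hcon
    push Not at hcon
    obtain ⟨x, hx, y, hy, z, hz, hxy, hxz, hyz⟩ := Finset.two_lt_card.1 hcon
    rw [Finset.mem_filter] at hx hy hz
    exact no_three_mod_three (pair_mod_three (ht.2 x hx.1 y hy.1 hxy) hx.2 hy.2)
      (pair_mod_three (ht.2 x hx.1 z hz.1 hxz) hx.2 hz.2)
      (pair_mod_three (ht.2 y hy.1 z hz.1 hyz) hy.2 hz.2)
  have h4 : (t.filter (fun x => ¬ (4 : ℤ) ∣ x.num * x.den)).card ≤ 3 := by
    by_contra hcon
    push Not at hcon
    obtain ⟨s, hs, hs4⟩ := Finset.exists_subset_card_eq (Nat.succ_le_of_lt hcon)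
    obtain ⟨x, y, z, w, hxy, hxz, hxw, hyz, hyw, hzw, rfl⟩ := Finset.card_eq_four.1 hs4
    have hx := hs (show x ∈ ({x, y, z, w} : Finset ℚ) by simp)
    have hy := hs (show y ∈ ({x, y, z, w} : Finset ℚ) by simp)
    have hz := hs (show z ∈ ({x, y, z, w} : Finset ℚ) by simp)
    have hw := hs (show w ∈ ({x, y, z, w} : Finset ℚ) by simp)
    rw [Finset.mem_filter] at hx hy hz hw
    exact no_four_mod_four (ht.2 x hx.1 y hy.1 hxy) (ht.2 x hx.1 z hz.1 hxz)
      (ht.2 x hx.1 w hw.1 hxw) (ht.2 y hy.1 z hz.1 hyz) (ht.2 y hy.1 w hw.1 hyw)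
      (ht.2 z hz.1 w hw.1 hzw) hx.2 hy.2 hz.2 hw.2
  have hsub : t.filter (fun x => ¬ (12 : ℤ) ∣ x.num * x.den) ⊆
      t.filter (fun x => ¬ (3 : ℤ) ∣ x.num * x.den) ∪
        t.filter (fun x => ¬ (4 : ℤ) ∣ x.num * x.den) := by
    intro x hx
    rw [Finset.mem_union, Finset.mem_filter, Finset.mem_filter]
    rw [Finset.mem_filter] at hx
    by_contra hcon
    push Not at hcon
    have a := hcon.1 hx.1
    have b := hcon.2 hx.1
    exact hx.2 (by omega)
  calc _ ≤ _ := Finset.card_le_card hsub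
    _ ≤ _ := Finset.card_union_le _ _
    _ ≤ 5 := by omega

end Pool.Agent.Results.MP_6a396b_nt.TwelveDivides
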